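import Mathlib

/-! Central projections of a centred ellipsoid from antipodal points are translates. -/

namespace Pool.Agent.Results.MP_39a3b1_gt.Ellipsoid

open Set Metric

/-- Euclidean space -/
abbrev E (n : ℕ) := EuclideanSpace ℝ (Fin n)

/-- the cone with apex `x` generated by `K` -/
def cone {n : ℕ} (K : Set (E n)) (x : E n) : Set (E n) :=
  {z | ∃ y ∈ K, ∃ l : ℝ, 0 ≤ l ∧ z = x + l • (y - x)}

/-- the hyperplane orthogonal to `x` -/
def perp {n : ℕ} (x : E n) : Set (E n) := {z | inner ℝ z x = 0}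

theorem refl {n : ℕ} (e x : E n) (he : ‖e‖ = 1) (hx : ‖x‖ = 1) :
    ∃ c ∈ perp x, ∀ z ∈ cone {y | 4 * ‖y‖ ^ 2 + 12 * inner ℝ y e ^ 2 ≤ 1} x ∩ perp x,
      c - z ∈ cone {y | 4 * ‖y‖ ^ 2 + 12 * inner ℝ y e ^ 2 ≤ 1} x ∩ perp x := by
  have hxx : inner ℝ x x = 1 := by rw [real_inner_self_eq_norm_sq, hx]; norm_num
  have hee : inner ℝ e e = 1 := by rw [real_inner_self_eq_norm_sq, he]; norm_num
  set a := inner ℝ x e with ha
  have hex : inner ℝ e x = a := real_inner_comm _ _
  set w : E n := (1 / 4 : ℝ) • x - (3 / 16 * a) • e with hw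
  set m : ℝ := 3 / 4 + 3 / 16 * a ^ 2 with hm
  have m0 : 0 < m := by positivity
  have hwx : inner ℝ w x = 1 - m := by
    simp only [hw, inner_sub_left, real_inner_smul_left, hxx, hex, hm]; ring
  have hc : (2 : ℝ) • x + (2 / m) • (w - x) ∈ perp x := by
    simp only [perp, mem_ofPred_eq, inner_add_left, inner_sub_left, real_inner_smul_left, hxx, hwx]
    field_simp; ring
  refine ⟨_, hc, ?_⟩
  rintro _ ⟨⟨y, hy, l, hl, rfl⟩, hz⟩
  refine ⟨?_, by simp only [perp, mem_ofPred_eq] at hc hz ⊢; rw [inner_sub_left, hc, hz, sub_zero]⟩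
  simp only [perp, mem_ofPred_eq, inner_add_left, inner_sub_left, real_inner_smul_left, hxx]
    at hy hz
  set s := inner ℝ y x with hs
  set b := inner ℝ y e with hb
  have hs1 : s < 1 := by
    have := real_inner_le_norm y x
    rw [hx] at this
    nlinarith [sq_nonneg b, norm_nonneg y]
  have hl' : l = 1 / (1 - s) := by
    rw [eq_div_iff (by linarith)]; linarith
  set k : ℝ := 2 * (1 - s) / m with hk
  set y' : E n := k • w - y with hy'
  have e1 : inner ℝ y' x = k * (1 - m) - s := by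
    simp only [hy', inner_sub_left, real_inner_smul_left, hwx, ← hs]
  have hkm : k * m = 2 * (1 - s) := by rw [hk]; field_simp
  have e2 : 4 * ‖y'‖ ^ 2 + 12 * inner ℝ y' e ^ 2 = 4 * ‖y‖ ^ 2 + 12 * b ^ 2 +
      k ^ 2 * (1 - m) - 2 * k * s := by
    rw [← real_inner_self_eq_norm_sq, ← real_inner_self_eq_norm_sq]
    simp only [hy', hw, inner_sub_left, inner_sub_right, real_inner_smul_left,
      real_inner_smul_right, hxx, hee, hex, ← ha, ← hs, ← hb, real_inner_comm y x,
      real_inner_comm y e, hm]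
    ring
  have e3 : 4 * ‖y'‖ ^ 2 + 12 * inner ℝ y' e ^ 2 ≤ (k - 1) ^ 2 := by
    rw [e2]; nlinarith
  have k1 : 0 < k - 1 := by
    by_contra h
    have h1 := (abs_le.1 (abs_real_inner_le_norm y' x)).1
    rw [hx, mul_one, e1] at h1
    have h2 : ‖y'‖ ≤ 1 - k := by
      refine (pow_le_pow_iff_left₀ (norm_nonneg _) (by linarith) two_ne_zero).1 ?_
      nlinarith [sq_nonneg (inner ℝ y' e), sq_nonneg ‖y'‖]
    nlinarith
  refine ⟨(1 / (k - 1)) • y', ?_, (k - 1) / (1 - s), div_nonneg k1.le (by linarith), ?_⟩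
  · simp only [mem_ofPred_eq, norm_smul, real_inner_smul_left, mul_pow, Real.norm_eq_abs, sq_abs]
    have : (1 / (k - 1)) ^ 2 * (k - 1) ^ 2 = 1 := by field_simp
    nlinarith [mul_le_mul_of_nonneg_left e3 (sq_nonneg (1 / (k - 1)))]
  · have h1 : (1 - s) ≠ 0 := by linarith
    have h2 : 2 / m = k / (1 - s) := by rw [hk]; field_simp
    rw [hl', h2, hy']
    match_scalars <;> field_simp <;> ring

theorem result (n : ℕ) (hn : 2 ≤ n) : ∃ K : Set (E n), IsCompact K ∧ Convex ℝ K ∧
    (interior K).Nonempty ∧ K ⊆ ball 0 1 ∧ (∀ (c : E n) (r : ℝ), K ≠ closedBall c r) ∧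
    ∀ x ∈ sphere (0 : E n) 1, ∃ v ∈ perp x,
      cone K (-x) ∩ perp x = (fun z => z + v) '' (cone K x ∩ perp x) := by
  let e : E n := EuclideanSpace.single ⟨0, by omega⟩ 1
  let f : E n := EuclideanSpace.single ⟨1, by omega⟩ 1
  have he : ‖e‖ = 1 := by simp [e]
  have hf : ‖f‖ = 1 := by simp [f]
  have hfe : inner ℝ f e = 0 := by simp [e, f, EuclideanSpace.inner_single_left]
  have hee : inner ℝ e e = 1 := by rw [real_inner_self_eq_norm_sq, he]; norm_num
  set K : Set (E n) := {y | 4 * ‖y‖ ^ 2 + 12 * inner ℝ y e ^ 2 ≤ 1} with hK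
  have hb : K ⊆ closedBall 0 (1 / 2) := fun y hy => by
    rw [mem_closedBall_zero_iff]
    have : 4 * ‖y‖ ^ 2 + 12 * inner ℝ y e ^ 2 ≤ 1 := hy
    nlinarith [sq_nonneg (inner ℝ y e), norm_nonneg y]
  have hneg : ∀ x z, z ∈ cone K x ∩ perp x → -z ∈ cone K (-x) ∩ perp (-x) := by
    rintro x _ ⟨⟨y, hy, l, hl, rfl⟩, hz⟩
    refine ⟨⟨-y, by simpa [hK] using hy, l, hl, by module⟩, ?_⟩
    simpa only [perp, mem_ofPred_eq, inner_neg_neg] using hz
  have hp : ∀ x : E n, perp (-x) = perp x := fun x => by simp [perp]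
  refine ⟨K, (isCompact_closedBall _ _).of_isClosed_subset
    (isClosed_le (by fun_prop) continuous_const) hb, ?_, ⟨0, ?_⟩,
    hb.trans (closedBall_subset_ball (by norm_num)), fun c r h => ?_, fun x hx => ?_⟩
  · intro y hy z hz s t hs ht hst
    simp only [hK, mem_ofPred_eq, inner_add_left, real_inner_smul_left] at hy hz ⊢
    have h1 : ‖s • y + t • z‖ ≤ s * ‖y‖ + t * ‖z‖ := (norm_add_le _ _).trans (by
      rw [norm_smul, norm_smul, Real.norm_of_nonneg hs, Real.norm_of_nonneg ht])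
    have h2 := pow_le_pow_left₀ (norm_nonneg _) h1 2
    obtain rfl : t = 1 - s := by linarith
    nlinarith [mul_nonneg (mul_nonneg hs ht) (sq_nonneg (‖y‖ - ‖z‖)),
      mul_nonneg (mul_nonneg hs ht) (sq_nonneg (inner ℝ y e - inner ℝ z e)),
      mul_le_mul_of_nonneg_left hy hs, mul_le_mul_of_nonneg_left hz ht]
  · refine mem_interior.2 ⟨{y | 4 * ‖y‖ ^ 2 + 12 * inner ℝ y e ^ 2 < 1}, fun y hy => by
      simp only [hK, mem_ofPred_eq] at hy ⊢; exact hy.le,
      isOpen_lt (by fun_prop) continuous_const, ?_⟩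
    simp
  · have m1 : ∀ t : ℝ, t ^ 2 ≤ 1 / 4 → t • f ∈ closedBall c r := fun t ht => by
      rw [← h]
      simp only [hK, mem_ofPred_eq, norm_smul, real_inner_smul_left, hfe, hf, mul_pow,
        Real.norm_eq_abs, sq_abs]
      linarith
    have a1 := m1 (1 / 2) (by norm_num)
    have a2 := m1 (-(1 / 2)) (by norm_num)
    have hr : 1 / 2 ≤ r := by
      have := dist_triangle_right ((1 / 2 : ℝ) • f) ((-(1 / 2) : ℝ) • f) c
      rw [dist_eq_norm, ← sub_smul, norm_smul, hf] at this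
      rw [mem_closedBall] at a1 a2
      norm_num at this
      norm_num at a1 a2
      linarith
    have b : ∀ t : ℝ, |t| = 1 / 2 → 12 * (inner ℝ c e + t) ^ 2 ≤ 1 := fun t ht => by
      have : c + t • e ∈ K := by
        rw [h, mem_closedBall, dist_self_add_left, norm_smul, he, Real.norm_eq_abs, ht]
        linarith
      simp only [hK, mem_ofPred_eq, inner_add_left, real_inner_smul_left, hee, mul_one] at this
      nlinarith [sq_nonneg ‖c + t • e‖]
    have b1 := b (1 / 2) (by norm_num [abs_of_pos])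
    have b2 := b (-(1 / 2)) (by norm_num [abs_of_pos])
    nlinarith [sq_nonneg (inner ℝ c e)]
  · obtain ⟨c, hc, hr⟩ := refl e x he (mem_sphere_zero_iff_norm.1 hx)
    refine ⟨-c, by simpa [perp] using hc, ?_⟩
    ext z
    constructor
    · intro hz
      rw [← hp] at hz
      have := hneg _ _ hz
      rw [neg_neg] at this
      exact ⟨_, hr _ this, by simp⟩
    · rintro ⟨u, hu, rfl⟩
      have := hneg _ _ (hr u hu)
      rw [hp] at this
      convert this using 1
      simp only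
      abel

end Pool.Agent.Results.MP_39a3b1_gt.Ellipsoid
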